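import Mathlib

set_option autoImplicit false

namespace Pool.Agent.Results.MP_ffd2af_nt.BigExp

open Finset Nat

/-- `a n = ∑_{i=1}^n (i!)^((n-i+1)!)`. -/
def a (n : ℕ) : ℕ := ∑ i ∈ Finset.Icc 1 n, (i !) ^ ((n - i + 1)!)

theorem fact_mul_le (s : ℕ) (hs : 1 ≤ s) (t : ℕ) : s ! * (t + 1)! ≤ (s + t)! := by
  induction t with
  | zero => simp
  | succ t ih =>
    have h1 : s ! * (t + 1 + 1)! = (t + 1 + 1) * (s ! * (t + 1)!) := by
      rw [Nat.factorial_succ (t + 1)]; ring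
    have h2 : (s + (t + 1))! = (s + t + 1) * (s + t)! := by
      rw [← Nat.add_assoc, Nat.factorial_succ]
    rw [h1, h2]
    exact Nat.mul_le_mul (by omega) ih

theorem fact_le_pow (j : ℕ) : (j + 3)! ≤ 2 ^ (3 * (j + 1)!) := by
  induction j with
  | zero => decide
  | succ j ih =>
    have h1 : (j + 1 + 3)! = (j + 4) * (j + 3)! := Nat.factorial_succ (j + 3)
    have h2 : (j + 1 + 1)! = (j + 2) * (j + 1)! := Nat.factorial_succ (j + 1)
    have h3 : 1 ≤ (j + 1)! := Nat.factorial_pos _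
    have h4 : j + 4 ≤ 2 ^ (3 * (j + 1)) := by
      have := @Nat.lt_two_pow_self (3 * (j + 1))
      omega
    have h5 : 3 * (j + 1) + 3 * (j + 1)! ≤ 3 * (j + 1 + 1)! := by
      rw [h2]; nlinarith
    calc (j + 1 + 3)! = (j + 4) * (j + 3)! := h1
      _ ≤ 2 ^ (3 * (j + 1)) * 2 ^ (3 * (j + 1)!) := Nat.mul_le_mul h4 ih
      _ = 2 ^ (3 * (j + 1) + 3 * (j + 1)!) := by rw [pow_add]
      _ ≤ _ := Nat.pow_le_pow_right (by norm_num) h5

theorem term_le (k i : ℕ) (hi : 3 ≤ i) (hk : i ≤ k + 2) :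
    (i !) ^ ((k + 2 - i + 1)!) ≤ 2 ^ (3 * k !) := by
  obtain ⟨j, rfl⟩ : ∃ j, i = j + 3 := ⟨i - 3, by omega⟩
  obtain ⟨t, rfl⟩ : ∃ t, k = j + 1 + t := ⟨k - (j + 1), by omega⟩
  have e1 : j + 1 + t + 2 - (j + 3) + 1 = t + 1 := by omega
  rw [e1]
  calc ((j + 3)!) ^ ((t + 1)!) ≤ (2 ^ (3 * (j + 1)!)) ^ ((t + 1)!) :=
        Nat.pow_le_pow_left (fact_le_pow j) _
    _ = 2 ^ (3 * ((j + 1)! * (t + 1)!)) := by rw [← pow_mul, mul_assoc]
    _ ≤ _ := Nat.pow_le_pow_right (by norm_num)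
        (Nat.mul_le_mul_left _ (fact_mul_le (j + 1) (by omega) t))

theorem a_split (k : ℕ) :
    a (k + 2) = 1 + 2 ^ ((k + 1)!) + ∑ i ∈ Finset.Icc 3 (k + 2), (i !) ^ ((k + 2 - i + 1)!) := by
  unfold a
  have h : Finset.Icc 1 (k + 2) = insert 1 (insert 2 (Finset.Icc 3 (k + 2))) := by
    ext x; simp only [Finset.mem_Icc, Finset.mem_insert]; omega
  rw [h, Finset.sum_insert (by simp), Finset.sum_insert (by simp)]
  have e : k + 2 - 2 + 1 = k + 1 := by omega
  rw [e]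
  simp only [Nat.factorial_one, one_pow, Nat.factorial_two]
  ring

theorem tail_le (k : ℕ) :
    ∑ i ∈ Finset.Icc 3 (k + 2), (i !) ^ ((k + 2 - i + 1)!) ≤ k * 2 ^ (3 * k !) := by
  have h := Finset.sum_le_card_nsmul (Finset.Icc 3 (k + 2))
    (fun i => (i !) ^ ((k + 2 - i + 1)!)) (2 ^ (3 * k !)) (fun i hi => by
      rw [Finset.mem_Icc] at hi; exact term_le k i hi.1 hi.2)
  have hc : (Finset.Icc 3 (k + 2)).card = k := by simp
  rw [hc, smul_eq_mul] at h
  exact h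

theorem succ_pow_ge (x d : ℕ) : x ^ (d + 1) + x ^ d ≤ (x + 1) ^ (d + 1) := by
  have h : x ^ d ≤ (x + 1) ^ d := Nat.pow_le_pow_left (by omega) d
  calc x ^ (d + 1) + x ^ d = x ^ d * (x + 1) := by ring
    _ ≤ (x + 1) ^ d * (x + 1) := Nat.mul_le_mul_right _ h
    _ = _ := by ring

theorem not_pow {N x d c : ℕ} (h1 : x ^ d < N) (h2 : N < (x + 1) ^ d) : N ≠ c ^ d := by
  rintro rfl
  have a1 : x < c := lt_of_pow_lt_pow_left₀ d (Nat.zero_le _) h1
  have a2 : c < x + 1 := lt_of_pow_lt_pow_left₀ d (Nat.zero_le _) h2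
  omega

theorem big (k : ℕ) (hk : 6 ≤ k) (q : ℕ) (hq2 : 2 ≤ q) (hq : q ≤ k + 1) (c : ℕ) :
    a (k + 2) ≠ c ^ q := by
  obtain ⟨m, hm⟩ : q ∣ (k + 1)! := Nat.dvd_factorial (by omega) hq
  obtain ⟨d, rfl⟩ : ∃ d, q = d + 1 := ⟨q - 1, by omega⟩
  have hF : (k + 1)! = (k + 1) * k ! := Nat.factorial_succ k
  have hF2 : 2 * (k + 1) ≤ k ! := by
    obtain ⟨j, rfl⟩ : ∃ j, k = j + 1 := ⟨k - 1, by omega⟩
    have h3 : 3 ! ≤ j ! := Nat.factorial_le (by omega)
    rw [Nat.factorial_succ j]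
    have : 3 ! = 6 := rfl
    nlinarith
  have hexp : (k + 1) + 3 * k ! ≤ m * d := by
    have h1 : (d + 1) * m ≤ 2 * (m * d) := by nlinarith
    have h2 : 7 * k ! ≤ (k + 1) * k ! := Nat.mul_le_mul_right _ (by omega)
    omega
  have hx : (2 ^ m) ^ (d + 1) = 2 ^ ((k + 1)!) := by rw [← pow_mul, hm, mul_comm]
  have ht := tail_le k
  apply not_pow (x := 2 ^ m)
  · rw [hx, a_split]; omega
  · have h1 := succ_pow_ge (2 ^ m) d
    have h2 : 2 ^ ((k + 1) + 3 * k !) ≤ (2 ^ m) ^ d := by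
      rw [← pow_mul]; exact Nat.pow_le_pow_right (by norm_num) hexp
    have h3 : k + 1 < 2 ^ (k + 1) := Nat.lt_two_pow_self
    have h4 : 1 ≤ 2 ^ (3 * k !) := Nat.one_le_two_pow
    have h5 : 1 + k * 2 ^ (3 * k !) < 2 ^ ((k + 1) + 3 * k !) := by
      rw [pow_add]; nlinarith
    rw [hx] at h1
    rw [a_split]; omega

/-- If `n > 4` and `a n = b ^ e`, then every prime factor of `e` is at least `n`. -/
theorem result : ∀ n : ℕ, 4 < n → ∀ b e : ℕ, a n = b ^ e →
    ∀ q : ℕ, q.Prime → q ∣ e → n ≤ q := by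
  intro n hn b e h q hq hqe
  obtain ⟨f, rfl⟩ := hqe
  rw [mul_comm, pow_mul] at h
  by_contra hlt
  have hlt : q < n := by omega
  have h2 := hq.two_le
  by_cases h8 : 8 ≤ n
  · obtain ⟨k, rfl⟩ : ∃ k, n = k + 2 := ⟨n - 2, by omega⟩
    exact big k (by omega) q h2 (by omega) _ h
  · have hn7 : n ≤ 7 := by omega
    interval_cases n
    · interval_cases q
      · exact not_pow (x := 4101) (by decide +kernel) (by decide +kernel) h
      · exact not_pow (x := 2 ^ 8) (by decide +kernel) (by decide +kernel) h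
      · exact absurd hq (by norm_num)
    · interval_cases q
      · exact not_pow (x := 2 ^ 60 + 2) (by decide +kernel) (by decide +kernel) h
      · exact not_pow (x := 2 ^ 40) (by decide +kernel) (by decide +kernel) h
      · exact absurd hq (by norm_num)
      · exact not_pow (x := 2 ^ 24) (by decide +kernel) (by decide +kernel) h
    · interval_cases q
      · exact not_pow (x := 2 ^ 360) (by decide +kernel) (by decide +kernel) h
      · exact not_pow (x := 2 ^ 240) (by decide +kernel) (by decide +kernel) h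
      · exact absurd hq (by norm_num)
      · exact not_pow (x := 2 ^ 144) (by decide +kernel) (by decide +kernel) h
      · exact absurd hq (by norm_num)

end Pool.Agent.Results.MP_ffd2af_nt.BigExp
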